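import Pool.Agent.H564.QS.C5
import Pool.Agent.H564.QH.E2

/-!
# The high derivatives of the completed L-functions of almost all quadratic twists
-/

set_option autoImplicit false

open Complex MeasureTheory Filter Topology Set MatrixGroups CongruenceSubgroup
open UpperHalfPlane hiding I
open Pool.Agent.Y19.QT (Twists Hecke IsFormOf sqf mem_sqf Mol)
open scoped ComplexConjugate

namespace Pool.Agent.H564.QS

open Pool.Agent.H564.QH

open H353.E H353.F Pool.Agent.H466.HF

/-- the law for one newform -/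
theorem deriv_one (K3 K4 : ℝ) (hK3 : 1 ≤ K3) (hK4 : 1 ≤ K4) : ∃ (K' L0 : ℝ), 0 < K' ∧ 1 ≤ L0 ∧
    ∀ (N : ℕ) [NeZero N] (f : CuspForm (Gamma0 N : Subgroup (GL (Fin 2) ℝ)) 2) (w : ℝ),
    W388.IsNewf N 2 f w → (∀ p : ℕ, p.Prime → ¬ p ∣ N → |W388.lamf f p| ≤ 2) →
    (∀ p : ℕ, p.Prime → p ∣ N → |W388.lamf f p| ≤ 1) →
    ∀ (X : ℕ) (U : ℝ) (Lf : ℂ → ℂ), 3 ≤ X → 1 ≤ U → L0 ≤ Real.log X → Real.log X / 2 ≤ Real.log N →
    Real.log N ≤ 3 * Real.log X → Size f X U K3 K4 Lf →
    ∀ (n : ℕ) (z : ℂ), iteratedDeriv n (LL (gE f) 0) z = 0 → K' * lo U z.im ≤ n →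
      z.re = 0 ∧ iteratedDeriv (n + 1) (LL (gE f) 0) z ≠ 0 := by
  obtain ⟨C0, H⟩ := datum_sharp 2 (by norm_num) (θ := 0) (η := 1 / 8) le_rfl (by norm_num) (by norm_num)
  set K' : ℝ := 2000000 * (2400 + 56000 * K4) + 192 * K3 + 2 * 10 ^ 12 with hK'
  have hK'b : 2 * 10 ^ 12 ≤ K' := by rw [hK']; linarith
  refine ⟨K', max 100000 (16 * |C0| + 1000), by linarith, le_max_of_le_left (by norm_num), ?_⟩
  intro N _ f w hf hgood hbad X U Lf hX hU1 hL0 hNlo hNup Sz n z hz hn
  have hL := one_le_logX hX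
  set L := Real.log X with hLd
  have hLp : 0 < L := by linarith
  have hL1 : 100000 ≤ L := (le_max_left _ _).trans hL0
  have hL2 : 16 * |C0| + 1000 ≤ L := (le_max_right _ _).trans hL0
  have hN1 := one_le_N (N := N)
  have hN0 : (0 : ℝ) < N := by linarith
  set y := z.im with hy
  have hy0 := abs_nonneg y
  set μ := lo U y with hμ
  have hμ1 : 1 / 2 ≤ μ := lo_ge hU1 y
  have hμ2 : Real.log (2 + |y|) ≤ μ := lo_ge_log hU1 y
  set ℓ := (gaD (N : ℝ) mu1 (3 / 2 + y * I)).re with hℓ
  have hℓlo := D1_ge hN1 y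
  have hℓup := D1_le hN1 y
  rw [← hℓ] at hℓlo hℓup
  have hlogN : Real.log (N * (1 + |y|) ^ 2) = Real.log N + 2 * Real.log (1 + |y|) := by
    rw [Real.log_mul hN0.ne' (by positivity), Real.log_pow]
    norm_num
  have hlog2 : Real.log (2 + |y|) ≤ Real.log (1 + |y|) + 1 := by
    have h1 : Real.log (2 + |y|) ≤ Real.log (2 * (1 + |y|)) := by
      apply Real.log_le_log (by linarith)
      linarith
    rw [Real.log_mul (by norm_num) (by linarith)] at h1
    have := Real.log_two_lt_d9
    linarith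
  have hlog0 : 0 ≤ Real.log (1 + |y|) := Real.log_nonneg (by linarith)
  rw [hlogN] at hℓlo
  have hℓ0 : L / 8 ≤ ℓ := by linarith
  have hℓp : 0 < ℓ := by linarith
  have e0 : z + 1 / 2 - 1 / 2 = z := by ring
  have hre : (z + 1 / 2 : ℂ).re = z.re + 1 / 2 := by simp
  have him : (z + 1 / 2 : ℂ).im = z.im := by simp
  rcases le_total (n : ℝ) ℓ with hnℓ | hnℓ
  · -- the local law
    have h4μ : 4 * μ ≤ ℓ := by nlinarith
    have hℓ3 : ℓ ≤ 3 * L := by linarith
    have hwL : 64 * (K3 * μ) / L ≤ n / ℓ := by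
      rw [div_le_div_iff₀ hLp hℓp]
      have h1 : 64 * (K3 * μ) * ℓ ≤ 64 * (K3 * μ) * (3 * L) := by gcongr
      have h2 : 192 * K3 * μ ≤ n := by
        refine le_trans ?_ hn
        apply mul_le_mul_of_nonneg_right _ (by linarith)
        rw [hK']
        linarith
      nlinarith
    have hw1 : (n : ℝ) / ℓ ≤ 1 := by rw [div_le_one hℓp]; exact hnℓ
    have hw0 : 0 < (n : ℝ) / ℓ := by
      refine lt_of_lt_of_le ?_ hwL
      have : 0 < K3 * μ := by positivity
      positivity
    have h64 : 64 * (K3 * μ) / L = 16 * (4 * (K3 * μ / L)) := by ring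
    have hnear : ∀ s : ℂ, |s.im - y| ≤ 3 * (n / ℓ) → lo U s.im ≤ 4 * μ := fun s hs =>
      lo_near3 hU1 (by linarith)
    have S : LocW Lf y (n / ℓ) (4 * K4 * μ) :=
      { diff := Sz.diff
        pos := hw0
        one := by nlinarith
        lo := fun s hs1 hs2 => by
          have h6 := hnear s hs2
          have h7 : K3 * lo U s.im ≤ 4 * (K3 * μ) := by nlinarith
          have h8 : K3 * lo U s.im / L ≤ 4 * (K3 * μ / L) := by
            rw [← mul_div_assoc]
            exact div_le_div_of_nonneg_right h7 hLp.le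
          have h9 := Sz.low s (by linarith) (by linarith)
          refine le_trans (Real.exp_le_exp.2 ?_) h9
          nlinarith
        up := fun s hs1 hs2 => by
          have h6 := hnear s hs2
          refine (Sz.up s hs1).trans (Real.exp_le_exp.2 ?_)
          nlinarith }
    refine newf_deriv hf hgood hbad Sz.comp hℓ hℓp hnℓ S ?_ ?_ hz
    · nlinarith
    · refine le_trans ?_ hn
      rw [hK']
      have h1 : 0 ≤ (192 * K3 + 2 * 10 ^ 12) * μ := by positivity
      have h2 : 2000000 * (100 * 12 + 14000 * (4 * K4 * μ)) ≤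
          2000000 * (2400 + 56000 * K4) * μ := by nlinarith
      nlinarith
  · -- the general law
    have h1 := H (N : ℝ) mu2 (al f) (w : ℂ) (LamD f) (datum_newf hf hgood hbad) n (z + 1 / 2) (by
      rw [him, ← hy]
      have h2 : ∏ j, (1 + ‖(y : ℂ) * I - mu2 j‖) ≤ (2 * (2 + |y|)) ^ 2 := by
        rw [Fin.prod_univ_two, sq]
        have h3 : ∀ j, 1 + ‖(y : ℂ) * I - mu2 j‖ ≤ 2 * (2 + |y|) := by
          intro j
          have h3 : ‖mu2 j‖ ≤ 3 / 2 := by
            unfold mu2
            split_ifs <;> norm_num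
          have h4 := norm_sub_le ((y : ℂ) * I) (mu2 j)
          rw [norm_mul, Complex.norm_I, mul_one, Complex.norm_real, Real.norm_eq_abs] at h4
          linarith
        exact mul_le_mul (h3 0) (h3 1) (by positivity) (by linarith)
      have h5 : Real.log (N * ∏ j, (1 + ‖(y : ℂ) * I - mu2 j‖)) ≤
          Real.log (N * (2 * (2 + |y|)) ^ 2) :=
        Real.log_le_log (by positivity) (mul_le_mul_of_nonneg_left h2 hN0.le)
      have h6 : Real.log (N * (2 * (2 + |y|)) ^ 2) =
          Real.log N + 2 * (Real.log 2 + Real.log (2 + |y|)) := by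
        rw [Real.log_mul hN0.ne' (by positivity), Real.log_pow,
          Real.log_mul (by norm_num) (by positivity)]
        norm_num
      rw [h6] at h5
      have h7 := Real.log_two_lt_d9
      have h8 := le_abs_self C0
      norm_num at h5 ⊢
      linarith) (by rw [iter_X, e0, hz, mul_zero])
    rw [hre, iter_X, e0] at h1
    exact ⟨by linarith [h1.1], right_ne_zero_of_mul h1.2⟩

end Pool.Agent.H564.QS
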