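import Pool.Agent.H564.QS.C5
import Pool.Agent.H564.QH.F1
import Pool.Agent.H487.NZ.DBase

/-!
# Small times: from the size of the L-function to the zeros of the flow and the speed of the phase
-/

set_option autoImplicit false

open Complex MeasureTheory Filter Topology Set MatrixGroups CongruenceSubgroup
open UpperHalfPlane hiding I
open scoped ComplexConjugate

namespace Pool.Agent.H564.QS

open Pool.Agent.H564.QH

open H353.E H353.F Pool.Agent.H466.HF Pool.Agent.H487 Pool.Agent.H487.MI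

section

variable {N : ℕ} [NeZero N] {f : CuspForm (Gamma0 N : Subgroup (GL (Fin 2) ℝ)) 2} {w : ℝ}

omit [NeZero N] in
/-- the regular scales -/
lemma gs_size {X : ℕ} (hX : 3 ≤ X) {U : ℝ} (hU1 : 1 ≤ U) {K3 K4 : ℝ} (hK3 : 1 ≤ K3) (hK4 : 1 ≤ K4) {Lf : ℂ → ℂ}
    (Sz : Size f X U K3 K4 Lf) {y L ε R : ℝ} (hL : 0 < L) (hε : 0 < ε) (hR : R ≤ L)
    (h1 : 240000 * K3 * lo U y * L ≤ R * Real.log X) (h2 : 16 * K3 * lo U y ≤ Real.log X)
    (h3 : 3 * K4 * lo U y ≤ ε * R) : GS Lf y L ε (1 / 30000) R := by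
  have hlX := one_le_logX hX
  have hlX0 : 0 < Real.log X := by linarith
  have hl := lo_ge hU1 y
  have hR0 : 0 < R := by
    have h4 : 0 < 3 * K4 * lo U y := by positivity
    have h5 : 0 < ε * R := by linarith
    exact pos_of_mul_pos_right h5 hε.le
  have him : ∀ z : ℂ, (1 / 2 + (y : ℂ) * I + z / (L : ℂ)).im = y + z.im / L := by
    intro z
    rw [add_im, Complex.div_ofReal_im]
    simp
  have hre : ∀ z : ℂ, (1 / 2 + (y : ℂ) * I + z / (L : ℂ)).re = 1 / 2 + z.re / L := by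
    intro z
    rw [add_re, Complex.div_ofReal_re]
    simp
  have hnear : ∀ z : ℂ, ‖z‖ ≤ R - 4 → lo U (1 / 2 + (y : ℂ) * I + z / (L : ℂ)).im ≤ 2 * lo U y := by
    intro z hz
    apply lo_near hU1
    rw [him, add_sub_cancel_left, abs_div, abs_of_pos hL, div_le_one hL]
    have := Complex.abs_im_le_norm z
    linarith
  constructor
  · intro z hz1 hz2
    have h4 := hnear z hz2
    set s := 1 / 2 + (y : ℂ) * I + z / (L : ℂ) with hs
    have h5 : K3 * lo U s.im ≤ 2 * (K3 * lo U y) := by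
      have := mul_le_mul_of_nonneg_left h4 (show 0 ≤ K3 by linarith)
      linarith
    have h6 : K3 * lo U s.im / Real.log X ≤ 2 * (K3 * lo U y) / Real.log X :=
      div_le_div_of_nonneg_right h5 hlX0.le
    have h7 := Sz.low s (h6.trans (by rw [div_le_iff₀ hlX0]; linarith)) (by
      rw [hs, hre]
      have h8 : 4 * (2 * (K3 * lo U y) / Real.log X) ≤ z.re / L := by
        rw [mul_div_assoc', div_le_div_iff₀ hlX0 hL]
        have h9 : 1 / 30000 * R * Real.log X ≤ z.re * Real.log X := by gcongr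
        linarith
      rw [← hs]
      linarith)
    intro h8
    rw [h8, norm_zero] at h7
    exact absurd h7 (not_le.2 (Real.exp_pos _))
  · intro z hz1 hz2
    have h4 := hnear z hz2
    have h5 := Sz.up (1 / 2 + (y : ℂ) * I + z / (L : ℂ)) (by
      rw [hre]
      have : 0 ≤ z.re / L := by positivity
      linarith)
    set s' : ℂ := 1 / 2 + (y : ℂ) * I + ((R / 2 / L : ℝ) : ℂ) with hs'
    have e1 : s'.im = y := by rw [hs']; simp
    have e2 : s'.re = 1 / 2 + R / 2 / L := by rw [hs', add_re, Complex.ofReal_re]; simp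
    have h6 := Sz.low s' (by
      rw [e1, div_le_iff₀ hlX0]
      linarith) (by
      rw [e1, e2]
      have h8 : 4 * (K3 * lo U y / Real.log X) ≤ R / 2 / L := by
        rw [mul_div_assoc', div_div, div_le_div_iff₀ hlX0 (by positivity)]
        have h9 : 0 ≤ K3 * lo U y * L := by positivity
        linarith
      linarith)
    rw [e1] at h6
    calc ‖Lf (1 / 2 + (y : ℂ) * I + z / (L : ℂ))‖ ≤ Real.exp (K4 * lo U (1 / 2 + (y : ℂ) * I + z / (L : ℂ)).im) := h5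
      _ ≤ Real.exp (ε * R + -(K4 * lo U y)) := by
          apply Real.exp_le_exp.2
          have := mul_le_mul_of_nonneg_left h4 (show 0 ≤ K4 by linarith)
          linarith
      _ = Real.exp (ε * R) * Real.exp (-(K4 * lo U y)) := Real.exp_add _ _
      _ ≤ _ := by gcongr

omit [NeZero N] in
lemma size_ne {X : ℕ} (hX : 3 ≤ X) {U : ℝ} (hU1 : 1 ≤ U) {K3 K4 : ℝ} (hK3 : 1 ≤ K3) {Lf : ℂ → ℂ}
    (Sz : Size f X U K3 K4 Lf) {y b A : ℝ} (hA : 0 ≤ A)
    (h1 : 8 * K3 * (1 + 2 * Real.log (1 + A)) * lo U y ≤ Real.log X)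
    (h2 : 4 * K3 * (1 + 2 * Real.log (1 + A)) * lo U y ≤ b * Real.log X) {s : ℂ}
    (hs : 1 / 2 + b ≤ s.re) (hs2 : |s.im - y| ≤ A) : Lf s ≠ 0 := by
  have hlX := one_le_logX hX
  have hlX0 : 0 < Real.log X := by linarith
  have h4 := lo_nearA hU1 hA hs2
  have h5 : K3 * lo U s.im ≤ K3 * (1 + 2 * Real.log (1 + A)) * lo U y := by
    rw [mul_assoc]
    exact mul_le_mul_of_nonneg_left h4 (by linarith)
  have h7 := Sz.low s (by rw [div_le_iff₀ hlX0]; linarith) (by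
    have h8 : 4 * (K3 * lo U s.im / Real.log X) ≤ b := by
      rw [mul_div_assoc', div_le_iff₀ hlX0]
      linarith
    linarith)
  intro h8
  rw [h8, norm_zero] at h7
  exact absurd h7 (not_le.2 (Real.exp_pos _))

end

/-- **small times** -/
theorem small_one (K3 K4 : ℝ) (hK3 : 1 ≤ K3) (hK4 : 1 ≤ K4) {δ : ℝ} (hδ : 0 < δ) :
    ∃ (K₁ c₃ c₅ L0 : ℝ), 0 < K₁ ∧ 0 < c₃ ∧ 0 < c₅ ∧ c₅ ≤ 1 / 4 ∧ 100 ≤ L0 ∧
    ∀ (N : ℕ) [NeZero N] (f : CuspForm (Gamma0 N : Subgroup (GL (Fin 2) ℝ)) 2) (w : ℝ),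
    W388.IsNewf N 2 f w → (∀ p : ℕ, p.Prime → ¬ p ∣ N → |W388.lamf f p| ≤ 2) →
    (∀ p : ℕ, p.Prime → p ∣ N → |W388.lamf f p| ≤ 1) →
    ∀ (X : ℕ) (U : ℝ) (Lf : ℂ → ℂ), 3 ≤ X → 1 ≤ U → L0 ≤ Real.log X → Real.log X / 2 ≤ Real.log N →
    Real.log N ≤ 3 * Real.log X → Size f X U K3 K4 Lf →
    ∀ y l : ℝ, 0 < l → lo U y ≤ c₅ * Real.log X → K₁ * lo U y ≤ l * Real.log X ^ 2 →
      l * Real.log X ≤ c₃ →
      (∀ z : ℂ, z.im = y → LL (gE f) l z = 0 → z.re = 0 ∧ deriv (LL (gE f) l) z ≠ 0) ∧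
      MJ.Spd (NB.xi (N : ℝ) (LamD f)) (2 * (gaD (N : ℝ) mu1 (3 / 2 + y * I)).re) l δ y := by
  obtain ⟨K, HK⟩ := NZ.datum_base 2 (by norm_num) (θ := 0) le_rfl (by norm_num)
  obtain ⟨ε₁, x₁, hε₁, hx₁, H1⟩ := MJ.det K
  obtain ⟨ε₂, x₂, hε₂, hx₂, H2⟩ := MJ.det2 K hδ
  obtain ⟨a₁, b₁, L₁, ha₁, hb₁, hL₁, H1⟩ := H1 1 one_pos le_rfl
  obtain ⟨a₂, b₂, L₂, ha₂, hb₂, hL₂, H2⟩ := H2 1 one_pos le_rfl
  set q : ℝ := 1 + 2 * Real.log (1 + 8) with hq
  have hq1 : 1 ≤ q := by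
    have : 0 ≤ Real.log (1 + 8) := Real.log_nonneg (by norm_num)
    rw [hq]; linarith
  set Kκ : ℝ := 16 * x₁ + 16 * x₂ + 120000000 + 20000 / δ ^ 2 + 960000 * K3 + 3 * K4 / ε₁ + 3 * K4 / ε₂ with hKκ
  have p1 : 0 < 20000 / δ ^ 2 := by positivity
  have p2 : 0 < 3 * K4 / ε₁ := by positivity
  have p3 : 0 < 3 * K4 / ε₂ := by positivity
  set b : ℝ := min (min b₁ b₂) 1 with hb
  have hb0 : 0 < b := lt_min (lt_min hb₁ hb₂) one_pos
  have hbb1 : b ≤ b₁ := (min_le_left _ _).trans (min_le_left _ _)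
  have hbb2 : b ≤ b₂ := (min_le_left _ _).trans (min_le_right _ _)
  have hb1 : b ≤ 1 := min_le_right _ _
  set c₅ : ℝ := b / (16 * K3 * q) with hc₅
  have hc₅0 : 0 < c₅ := by positivity
  have hc₅e : 16 * K3 * q * c₅ = b := by rw [hc₅]; field_simp
  have hc₅K : 16 * K3 * c₅ ≤ 1 := by
    have h1 : 16 * K3 * c₅ * 1 ≤ 16 * K3 * c₅ * q := mul_le_mul_of_nonneg_left hq1 (by positivity)
    linarith
  have hc₅4 : c₅ ≤ 1 / 4 := by
    have h1 : 1 * c₅ ≤ K3 * c₅ := mul_le_mul_of_nonneg_right hK3 hc₅0.le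
    linarith
  refine ⟨16 * Kκ, min a₁ a₂ / 4, c₅, 4 * L₁ + 4 * L₂ + 240000000 + 9600 / δ, by positivity,
    by positivity, hc₅0, hc₅4, ?_, ?_⟩
  · have : 0 < 9600 / δ := by positivity
    linarith
  intro N _ f w hf hgood hbad X U Lf hX hU1 hL0 hNlo hNup Sz y l hl hc hlo hup
  have hlX := one_le_logX hX
  set Λ := Real.log X with hΛ
  have hΛ0 : 0 < Λ := by linarith
  have hμ := lo_ge hU1 y
  set μ := lo U y with hμd
  have hμy : Real.log (2 + |y|) ≤ μ := lo_ge_log hU1 y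
  have p4 : 0 < 9600 / δ := by positivity
  have hN1 := one_le_N (N := N)
  have hN0 : (0 : ℝ) < N := by linarith
  have hy := abs_nonneg y
  set L := 2 * (gaD (N : ℝ) mu1 (3 / 2 + y * I)).re with hL
  have hcmp := D1_cmp (N := N) y
  rw [← hL, log_cnd] at hcmp
  obtain ⟨q1, q2⟩ := abs_le.1 hcmp
  have hly : 0 ≤ Real.log (1 + |y|) := Real.log_nonneg (by linarith)
  have hly2 : Real.log (1 + |y|) ≤ Real.log (2 + |y|) := Real.log_le_log (by linarith) (by linarith)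
  have hLlo : Λ / 4 ≤ L := by linarith
  have hμ4 : μ ≤ 1 / 4 * Λ := hc.trans (by gcongr)
  have hLup : L ≤ 4 * Λ := by linarith
  have hLp : 0 < L := by linarith
  have h16 : 16 * K3 * μ ≤ Λ := by
    calc 16 * K3 * μ ≤ 16 * K3 * (c₅ * Λ) := by gcongr
      _ = (16 * K3 * c₅) * Λ := by ring
      _ ≤ 1 * Λ := by gcongr
      _ = Λ := one_mul _
  have hzf1 : 8 * K3 * q * μ ≤ Λ := by
    calc 8 * K3 * q * μ ≤ 8 * K3 * q * (c₅ * Λ) := by gcongr
      _ = (16 * K3 * q * c₅) * Λ / 2 := by ring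
      _ = b * Λ / 2 := by rw [hc₅e]
      _ ≤ Λ := by
          have := mul_le_mul_of_nonneg_right hb1 hΛ0.le
          linarith
  have hzf2 : 4 * K3 * q * μ ≤ b * Λ := by
    calc 4 * K3 * q * μ ≤ 4 * K3 * q * (c₅ * Λ) := by gcongr
      _ = (16 * K3 * q * c₅) * Λ / 4 := by ring
      _ = b * Λ / 4 := by rw [hc₅e]
      _ ≤ b * Λ := by
          have : 0 ≤ b * Λ := by positivity
          linarith
  have hzfree : ∀ s : ℂ, 1 / 2 + b ≤ s.re → |s.im - y| ≤ 8 → Lf s ≠ 0 := fun s s1 s2 =>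
    size_ne hX hU1 hK3 Sz (by norm_num) hzf1 hzf2 s1 s2
  set κ := Kκ * μ with hκ
  have k1 : 8 * x₁ ≤ κ := by
    rw [hκ, hKκ]
    have : 16 * x₁ * (1 / 2) ≤ 16 * x₁ * μ := by gcongr
    have h2 : 0 ≤ (16 * x₂ + 120000000 + 20000 / δ ^ 2 + 960000 * K3 + 3 * K4 / ε₁ + 3 * K4 / ε₂) * μ := by positivity
    linarith
  have k2 : 8 * x₂ ≤ κ := by
    rw [hκ, hKκ]
    have : 16 * x₂ * (1 / 2) ≤ 16 * x₂ * μ := by gcongr
    have h2 : 0 ≤ (16 * x₁ + 120000000 + 20000 / δ ^ 2 + 960000 * K3 + 3 * K4 / ε₁ + 3 * K4 / ε₂) * μ := by positivity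
    linarith
  have k3 : 60000000 ≤ κ := by
    rw [hκ, hKκ]
    have : (120000000 : ℝ) * (1 / 2) ≤ 120000000 * μ := by gcongr
    have h2 : 0 ≤ (16 * x₁ + 16 * x₂ + 20000 / δ ^ 2 + 960000 * K3 + 3 * K4 / ε₁ + 3 * K4 / ε₂) * μ := by positivity
    linarith
  have k4 : 10 ^ 4 / δ ^ 2 ≤ κ := by
    rw [hκ, hKκ]
    have : 20000 / δ ^ 2 * (1 / 2) ≤ 20000 / δ ^ 2 * μ := by gcongr
    have h2 : 0 ≤ (16 * x₁ + 16 * x₂ + 120000000 + 960000 * K3 + 3 * K4 / ε₁ + 3 * K4 / ε₂) * μ := by positivity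
    have h3 : (10 : ℝ) ^ 4 / δ ^ 2 = 20000 / δ ^ 2 * (1 / 2) := by ring
    linarith
  have k5 : 960000 * K3 * μ ≤ κ := by
    rw [hκ, hKκ]
    have h2 : 0 ≤ (16 * x₁ + 16 * x₂ + 120000000 + 20000 / δ ^ 2 + 3 * K4 / ε₁ + 3 * K4 / ε₂) * μ := by positivity
    linarith
  have k6 : 3 * K4 * μ ≤ ε₁ * κ := by
    have h1 : 3 * K4 / ε₁ * μ ≤ κ := by
      rw [hκ, hKκ]
      have h2 : 0 ≤ (16 * x₁ + 16 * x₂ + 120000000 + 20000 / δ ^ 2 + 960000 * K3 + 3 * K4 / ε₂) * μ := by positivity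
      linarith
    calc 3 * K4 * μ = ε₁ * (3 * K4 / ε₁ * μ) := by field_simp
      _ ≤ _ := by gcongr
  have k7 : 3 * K4 * μ ≤ ε₂ * κ := by
    have h1 : 3 * K4 / ε₂ * μ ≤ κ := by
      rw [hκ, hKκ]
      have h2 : 0 ≤ (16 * x₁ + 16 * x₂ + 120000000 + 20000 / δ ^ 2 + 960000 * K3 + 3 * K4 / ε₁) * μ := by positivity
      linarith
    calc 3 * K4 * μ = ε₂ * (3 * K4 / ε₂ * μ) := by field_simp
      _ ≤ _ := by gcongr
  have hκ0 : 0 < κ := by linarith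
  have hG : ∀ ε : ℝ, 0 < ε → 3 * K4 * μ ≤ ε * κ → ∀ j : ℕ, (3 / 2 : ℝ) ^ j * κ ≤ 1 * L →
      GS Lf y L ε (1 / 30000) ((3 / 2 : ℝ) ^ j * κ) := by
    intro ε hε hεκ j hj
    have hj1 : (1 : ℝ) ≤ (3 / 2 : ℝ) ^ j := one_le_pow₀ (by norm_num)
    have hκj : κ ≤ (3 / 2 : ℝ) ^ j * κ := le_mul_of_one_le_left hκ0.le hj1
    refine gs_size hX hU1 hK3 hK4 Sz hLp hε (by linarith) ?_ h16 ?_
    · calc 240000 * K3 * lo U y * L ≤ 240000 * K3 * μ * (4 * Λ) := by gcongr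
        _ = 960000 * K3 * μ * Λ := by ring
        _ ≤ (3 / 2 : ℝ) ^ j * κ * Λ := mul_le_mul_of_nonneg_right (k5.trans hκj) hΛ0.le
    · refine hεκ.trans ?_
      gcongr
  have hκl : κ ≤ l * L ^ 2 := by
    have h1 : (Λ / 4) ^ 2 ≤ L ^ 2 := pow_le_pow_left₀ (by positivity) hLlo 2
    have h2 : l * (Λ / 4) ^ 2 ≤ l * L ^ 2 := by gcongr
    have h3 : 16 * κ ≤ l * Λ ^ 2 := by
      rw [hκ]
      linarith
    linarith
  have hm1 : min a₁ a₂ ≤ a₁ := min_le_left _ _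
  have hm2 : min a₁ a₂ ≤ a₂ := min_le_right _ _
  have hlL : l * L ≤ 4 * (l * Λ) := by
    have := mul_le_mul_of_nonneg_left hLup hl.le
    linarith
  have D := dt_newf hf Sz.diff Sz.comp y
  rw [← hL] at D
  have d := datum_newf hf hgood hbad
  have C0 := NB.datum_cl (by norm_num : 1 ≤ 2) (θ := 0) le_rfl (by norm_num) d
  have Bs := HK _ _ _ _ _ d y
  have hcc : |2 * (1 / 2 * Real.log (NB.cond (N : ℝ) mu2 y)) - L| ≤ 300 := cond_cmp y
  have hyy : |y - y| ≤ 1 / L := by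
    rw [sub_self, abs_zero]
    positivity
  have hδL : 8 * 300 ≤ δ * L := by
    have h1 : 9600 / δ ≤ Λ := by linarith
    rw [div_le_iff₀ hδ] at h1
    have h2 := mul_le_mul_of_nonneg_left hLlo hδ.le
    linarith
  constructor
  · intro z hzy hz
    have e1 : z + 1 / 2 - 1 / 2 = z := by ring
    have hflow := flow_eq hf hgood hbad hl
    have h0 : NB.flow l (NB.xi (N : ℝ) (LamD f)) (z + 1 / 2) = 0 := by
      rw [hflow]
      simp only
      rw [e1, hz, mul_zero]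
    have hst := NZ.datum_strip (by norm_num : 1 ≤ 2) (θ := 0) le_rfl (by norm_num) d hl.le h0
    have hr : |z.re| ≤ 2 := by
      have : (z + 1 / 2 : ℂ).re - 1 / 2 = z.re := by simp
      rw [this] at hst
      linarith
    have es : 1 / 2 + (y : ℂ) * I + (z.re : ℂ) = z + 1 / 2 := by
      apply Complex.ext
      · simp; ring
      · simp [hzy]
    have h7 := H1 _ _ _ L y 300 κ y _ _ l D Bs (by linarith) (by linarith) (by norm_num) hcc k1
      (by linarith) (by linarith) (hG ε₁ hε₁ k6) (fun s s1 s2 => hzfree s (by linarith) s2) hyy hκl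
      (by linarith) z.re hr (by
        rw [NB.heat_eq_flow C0.diff C0.type0 hl, es, h0])
    rw [NB.heat_eq_flow C0.diff C0.type0 hl] at h7
    obtain ⟨r1, r2⟩ := h7
    refine ⟨r1, ?_⟩
    have es2 : 1 / 2 + (y : ℂ) * I = z + 1 / 2 := by
      rw [← es, r1]
      simp
    obtain ⟨A, c, k⟩ := gE_kern f hf
    rw [es2, hflow, deriv_shift (k.differentiable l)] at r2
    exact right_ne_zero_of_mul r2
  · exact H2 _ _ _ L y 300 κ y _ _ l D Bs (by linarith) (by linarith) (by norm_num) hδL hcc k2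
      (by linarith) (by linarith) k4 (hG ε₂ hε₂ k7) (fun s s1 s2 => hzfree s (by linarith) s2) hyy hκl
      (by linarith)

end Pool.Agent.H564.QS
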