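import Pool.Agent.H564.QS.F2

/-!
# All times: the linear threshold for one newform, and the spacing of the zeros
-/

set_option autoImplicit false

open Complex MeasureTheory Filter Topology Set MatrixGroups CongruenceSubgroup
open UpperHalfPlane hiding I
open scoped ComplexConjugate

namespace Pool.Agent.H564.QS

open Pool.Agent.H564.QH

open H353.E H353.F Pool.Agent.H466.HF Pool.Agent.H487 Pool.Agent.H487.MI

/-- the linear law for one newform -/
theorem lin_one (K3 K4 : ℝ) (hK3 : 1 ≤ K3) (hK4 : 1 ≤ K4) {δ : ℝ} (hδ : 0 < δ) :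
    ∃ (K' c L0 : ℝ), 0 < K' ∧ 0 < c ∧ 100 ≤ L0 ∧
    ∀ (N : ℕ) [NeZero N] (f : CuspForm (Gamma0 N : Subgroup (GL (Fin 2) ℝ)) 2) (w : ℝ),
    W388.IsNewf N 2 f w → (∀ p : ℕ, p.Prime → ¬ p ∣ N → |W388.lamf f p| ≤ 2) →
    (∀ p : ℕ, p.Prime → p ∣ N → |W388.lamf f p| ≤ 1) →
    ∀ (X : ℕ) (U : ℝ) (Lf : ℂ → ℂ), 3 ≤ X → 1 ≤ U → L0 ≤ Real.log X → Real.log X / 2 ≤ Real.log N →
    Real.log N ≤ 3 * Real.log X → Size f X U K3 K4 Lf →
    (∀ (l : ℝ) (z : ℂ), 0 < l → l ≤ 1 → LL (gE f) l z = 0 →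
      K' * lo U z.im ≤ l * Real.log X ^ 2 → z.re = 0 ∧ deriv (LL (gE f) l) z ≠ 0) ∧
    ∀ l y : ℝ, 0 < l → K' * lo U y ≤ l * Real.log X ^ 2 → l * Real.log X ≤ c →
      MJ.Spd (NB.xi (N : ℝ) (LamD f)) (2 * (gaD (N : ℝ) mu1 (3 / 2 + y * I)).re) l δ y := by
  obtain ⟨K₁, c₃, c₅, L₀, hK₁, hc₃, hc₅, hc₅4, hL₀, HS⟩ := small_one K3 K4 hK3 hK4 hδ
  obtain ⟨A, t₁, hA, ht₁, HC⟩ := coarse_one (η := c₃ / 4) (by positivity)
  obtain ⟨Q0, HB⟩ := newf_heat (η := 1) (K := 1) one_pos le_rfl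
  set q : ℝ := 1 + 2 * Real.log (1 + A) with hq
  have hq1 : 1 ≤ q := by
    have : 0 ≤ Real.log (1 + A) := Real.log_nonneg (by linarith)
    rw [hq]; linarith
  set b : ℝ := c₃ / 8 with hb
  have hb0 : 0 < b := by positivity
  set c₆ : ℝ := min c₅ (min b 1 / (8 * K3 * q)) with hc₆
  have hc₆0 : 0 < c₆ := lt_min hc₅ (by positivity)
  have hc₆5 : c₆ ≤ c₅ := min_le_left _ _
  have hc₆b : 8 * K3 * q * c₆ ≤ min b 1 := by
    have h1 : c₆ ≤ min b 1 / (8 * K3 * q) := min_le_right _ _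
    rwa [le_div_iff₀ (by positivity), mul_comm] at h1
  have hmb : min b 1 ≤ b := min_le_left _ _
  have hm1 : min b 1 ≤ 1 := min_le_right _ _
  have p1 : 0 < 4 / c₆ := by positivity
  have p2 : 0 < 4 / t₁ := by positivity
  refine ⟨K₁ + 4 / c₆, min c₃ 4, L₀ + 2 * |Q0| + 4 / t₁, by positivity, by positivity,
    by linarith [abs_nonneg Q0], ?_⟩
  intro N _ f w hf hgood hbad X U Lf hX hU1 hL0 hNlo hNup Sz
  have hlX := one_le_logX hX
  set Λ := Real.log X with hΛ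
  have hΛ0 : 0 < Λ := by linarith
  have hQ0 := abs_nonneg Q0
  have hQ1 := le_abs_self Q0
  have hΛ1 : L₀ ≤ Λ := by linarith
  have hΛ2 : 2 * Q0 ≤ Λ := by linarith
  have hΛ3 : 4 / t₁ ≤ Λ := by linarith
  have hN1 := one_le_N (N := N)
  have hN0 : (0 : ℝ) < N := by linarith
  have hcN : ∀ y : ℝ, Λ / 2 ≤ Real.log (N * (1 + |y|) ^ 2) := by
    intro y
    rw [log_cnd]
    have : 0 ≤ Real.log (1 + |y|) := Real.log_nonneg (by linarith [abs_nonneg y])
    linarith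
  have hKl : ∀ {l μ : ℝ}, 0 ≤ μ → (K₁ + 4 / c₆) * μ ≤ l * Λ ^ 2 → K₁ * μ ≤ l * Λ ^ 2 := by
    intro l μ hμ h
    have : 0 ≤ 4 / c₆ * μ := by positivity
    linarith
  constructor
  · intro l z hl hl1 hz hlz
    have hμ := lo_ge hU1 z.im
    have hcl := mul_le_mul_of_nonneg_left (hcN z.im) hl.le
    have hbig : 4 ≤ l * Λ → z.re = 0 ∧ deriv (LL (gE f) l) z ≠ 0 := fun h =>
      HB N f w hf hgood hbad l hl hl1 z hz (by linarith [hcN z.im]) (by linarith)
    rcases le_total (lo U z.im) (c₆ * Λ) with h1 | h1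
    · rcases le_total (l * Λ) c₃ with h2 | h2
      · exact (HS N f w hf hgood hbad X U Lf hX hU1 hΛ1 hNlo hNup Sz z.im l hl
          (h1.trans (mul_le_mul_of_nonneg_right hc₆5 hΛ0.le)) (hKl (by linarith) hlz) h2).1 z rfl hz
      · rcases le_total l t₁ with h3 | h3
        · refine HC N f w hf hgood hbad z.im l b hl h3 hb0.le (by linarith) (fun u hu1 hu2 => ?_) z
            rfl hz
          have e1 : u + 1 / 2 - 1 / 2 = u := by ring
          have h4 := comp_ext hf Sz.diff Sz.comp (s := u + 1 / 2) (by rw [half_re]; linarith)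
          rw [e1] at h4
          rw [h4]
          refine mul_ne_zero (gg_ne (by rw [half_re, half_re]; linarith)) ?_
          have h5 : 8 * K3 * q * lo U z.im ≤ min b 1 * Λ := by
            calc 8 * K3 * q * lo U z.im ≤ 8 * K3 * q * (c₆ * Λ) :=
                  mul_le_mul_of_nonneg_left h1 (by positivity)
              _ = (8 * K3 * q * c₆) * Λ := by ring
              _ ≤ _ := mul_le_mul_of_nonneg_right hc₆b hΛ0.le
          have h6 : min b 1 * Λ ≤ 1 * Λ := mul_le_mul_of_nonneg_right hm1 hΛ0.le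
          have h7 : min b 1 * Λ ≤ b * Λ := mul_le_mul_of_nonneg_right hmb hΛ0.le
          have h8 : 0 ≤ 4 * K3 * q * lo U z.im := by positivity
          exact size_ne hX hU1 hK3 Sz (y := z.im) (b := b) (A := A) hA.le (by rw [← hq]; linarith)
            (by rw [← hq]; linarith) (by rw [half_re]; linarith) (by rw [half_im]; exact hu2)
        · apply hbig
          have h4 : t₁ * (4 / t₁) ≤ l * Λ := mul_le_mul h3 hΛ3 p2.le hl.le
          rwa [mul_div_cancel₀ _ ht₁.ne'] at h4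
    · apply hbig
      have h4 : 4 / c₆ * (c₆ * Λ) ≤ 4 / c₆ * lo U z.im := mul_le_mul_of_nonneg_left h1 p1.le
      have h5 : 4 / c₆ * (c₆ * Λ) = 4 * Λ := by field_simp
      have h6 : 0 ≤ K₁ * lo U z.im := by positivity
      have h7 : 4 * Λ ≤ (l * Λ) * Λ := by linarith
      exact le_of_mul_le_mul_right h7 hΛ0
  · intro l y hl hlo hup
    have hμ := lo_ge hU1 y
    have hup3 : l * Λ ≤ c₃ := hup.trans (min_le_left _ _)
    have hup4 : l * Λ ≤ 4 := hup.trans (min_le_right _ _)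
    refine (HS N f w hf hgood hbad X U Lf hX hU1 hΛ1 hNlo hNup Sz y l hl ?_ (hKl (by linarith) hlo) hup3).2
    have h1 : 4 / c₆ * lo U y ≤ 4 * Λ := by
      have h2 : 0 ≤ K₁ * lo U y := by positivity
      have h3 : l * Λ ^ 2 ≤ 4 * Λ := by
        calc l * Λ ^ 2 = (l * Λ) * Λ := by ring
          _ ≤ 4 * Λ := mul_le_mul_of_nonneg_right hup4 hΛ0.le
      linarith
    have h2 : lo U y ≤ c₆ * Λ := by
      rw [div_mul_eq_mul_div, div_le_iff₀ hc₆0] at h1
      linarith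
    exact h2.trans (mul_le_mul_of_nonneg_right hc₆5 hΛ0.le)

lemma ref_change {v L L' δ η : ℝ} (h2 : |v - L / 2| ≤ δ * (L / 2)) (hδ : δ = η / 4) (hη : 0 < η)
    (hη1 : η ≤ 1) (hLL : |L - L'| ≤ 28) (hL' : 200 / η ≤ L') : |v - L' / 2| ≤ η / 2 * (L' / 2) := by
  rw [div_le_iff₀ hη] at hL'
  obtain ⟨a1, a2⟩ := abs_le.1 h2
  obtain ⟨b1, b2⟩ := abs_le.1 hLL
  rw [hδ] at a1 a2
  have c1 : η * L ≤ η * (L' + 28) := mul_le_mul_of_nonneg_left (by linarith) hη.le
  have c2 : η * 28 ≤ 28 := by linarith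
  rw [abs_le]
  constructor <;> linarith

/-- change of the reference value in the speed of the phase -/
lemma spd_change {F : ℂ → ℂ} {L L' l δ η y : ℝ} (h : MJ.Spd F L l δ y) (hδ : δ = η / 4) (hη : 0 < η)
    (hη1 : η ≤ 1) (hLL : |L - L'| ≤ 28) (hL' : 200 / η ≤ L') : MJ.Spd F L' l (η / 2) y :=
  ⟨h.1, ref_change h.2 hδ hη hη1 hLL hL'⟩

/-- **the spacing for one newform** -/
theorem space_one {N : ℕ} [NeZero N] {f : CuspForm (Gamma0 N : Subgroup (GL (Fin 2) ℝ)) 2} {w : ℝ}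
    (hf : W388.IsNewf N 2 f w)
    (hgood : ∀ p : ℕ, p.Prime → ¬ p ∣ N → |W388.lamf f p| ≤ 2)
    (hbad : ∀ p : ℕ, p.Prime → p ∣ N → |W388.lamf f p| ≤ 1) {η l y₀ L : ℝ} (hη : 0 < η) (hη1 : η ≤ 1)
    (hl : 0 < l) (hLd : L = Real.log (N * (1 + |y₀|) ^ 2)) (hL : 200 / η ≤ L)
    (hS : ∀ y : ℝ, |y - y₀| ≤ 1 →
      MJ.Spd (NB.xi (N : ℝ) (LamD f)) (2 * (gaD (N : ℝ) mu1 (3 / 2 + y * I)).re) l (η / 4) y)
    (hline : ∀ z : ℂ, |z.im - y₀| ≤ 1 → LL (gE f) l z = 0 → z.re = 0) :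
    (∀ z z' : ℂ, |z.im - y₀| ≤ 1 → |z'.im - y₀| ≤ 1 → LL (gE f) l z = 0 → LL (gE f) l z' = 0 →
      z ≠ z' → (1 - η) * (2 * Real.pi / L) ≤ |z.im - z'.im|) ∧
    ∀ a b : ℝ, y₀ - 1 ≤ a → b ≤ y₀ + 1 → (1 + η) * (2 * Real.pi / L) ≤ b - a →
      ∃ z : ℂ, LL (gE f) l z = 0 ∧ a ≤ z.im ∧ z.im ≤ b := by
  have d := datum_newf hf hgood hbad
  have C0 := NB.datum_cl (by norm_num : 1 ≤ 2) (θ := 0) le_rfl (by norm_num) d
  obtain ⟨K, HK⟩ := NZ.datum_base 2 (by norm_num) (θ := 0) le_rfl (by norm_num)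
  obtain ⟨ε, hε, hfe⟩ := (HK _ _ _ _ _ d 0).fe
  have hL0 : 0 < L := lt_of_lt_of_le (by positivity) hL
  have hflow := flow_eq hf hgood hbad hl
  have hheat : NB.heat l (NB.xi (N : ℝ) (LamD f)) = fun s => kn N * LL (gE f) l (s - 1 / 2) := by
    rw [NB.heat_eq_flow C0.diff C0.type0 hl, hflow]
  have hsr : ∀ s : ℂ, (s - 1 / 2 : ℂ).re = s.re - 1 / 2 := fun s => by simp
  have hsi : ∀ s : ℂ, (s - 1 / 2 : ℂ).im = s.im := fun s => by simp
  have E := MJ.eqs_of C0.diff C0.type0 hε hfe (L := L) (lam := l) (η := η) (u := y₀ - 1) (v := y₀ + 1)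
    hL0 hl hη hη1 (fun y hy => by
      have hyy : |y - y₀| ≤ 1 := abs_le.2 ⟨by linarith [hy.1], by linarith [hy.2]⟩
      refine spd_change (hS y hyy) rfl hη hη1 ?_ hL
      have h1 := D1_cmp (N := N) y
      have h2 : |Real.log (N * (1 + |y|) ^ 2) - L| ≤ 2 := by
        rw [hLd, log_cnd, log_cnd]
        have hy0 := abs_nonneg y
        have hy1 := abs_nonneg y₀
        have h3 := abs_sub_abs_le_abs_sub y y₀
        have h4 := abs_sub_abs_le_abs_sub y₀ y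
        rw [abs_sub_comm] at h4
        have h5 : Real.log (1 + |y|) ≤ Real.log (2 * (1 + |y₀|)) :=
          Real.log_le_log (by linarith) (by linarith)
        have h6 : Real.log (1 + |y₀|) ≤ Real.log (2 * (1 + |y|)) :=
          Real.log_le_log (by linarith) (by linarith)
        rw [Real.log_mul (by norm_num) (by linarith)] at h5 h6
        have := Real.log_two_lt_d9
        rw [abs_le]
        constructor <;> linarith
      have h3 := abs_add_le (2 * (gaD (N : ℝ) mu1 (3 / 2 + y * I)).re - Real.log (N * (1 + |y|) ^ 2))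
        (Real.log (N * (1 + |y|) ^ 2) - L)
      rw [sub_add_sub_cancel] at h3
      linarith)
    (fun s s1 s2 hs => by
      rw [hheat] at hs
      have h1 := (mul_eq_zero.1 hs).resolve_left (kn_ne N)
      have h2 := hline _ (by rw [hsi, abs_le]; constructor <;> linarith) h1
      rw [hsr] at h2
      linarith)
  have e : ∀ z : ℂ, z + 1 / 2 - 1 / 2 = z := fun z => by ring
  have hz' : ∀ z : ℂ, LL (gE f) l z = 0 → NB.heat l (NB.xi (N : ℝ) (LamD f)) (z + 1 / 2) = 0 := by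
    intro z hz
    rw [hheat]
    simp only
    rw [e, hz, mul_zero]
  refine ⟨fun z z' h1 h2 h3 h4 hne => ?_, fun a b ha hb hab => ?_⟩
  · have h1' := abs_le.1 h1
    have h2' := abs_le.1 h2
    have := E.1 (z + 1 / 2) (z' + 1 / 2) (by rw [half_im]; linarith) (by rw [half_im]; linarith)
      (by rw [half_im]; linarith) (by rw [half_im]; linarith) (hz' z h3) (hz' z' h4)
      (fun h => hne (by simpa using h))
    rwa [half_im, half_im] at this
  · obtain ⟨s, hs, h1, h2⟩ := E.2 a b ha hb hab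
    rw [hheat] at hs
    exact ⟨s - 1 / 2, (mul_eq_zero.1 hs).resolve_left (kn_ne N), by rw [hsi]; exact h1,
      by rw [hsi]; exact h2⟩

end Pool.Agent.H564.QS
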