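import Pool.Agent.H564.QS.F3

/-!
# The heat flow of almost all quadratic twists: linear threshold and spacing
-/

set_option autoImplicit false

open Complex MeasureTheory Filter Topology Set MatrixGroups CongruenceSubgroup
open UpperHalfPlane hiding I
open Pool.Agent.Y19.QT (Twists Hecke IsFormOf sqf mem_sqf Mol)
open scoped ComplexConjugate

namespace Pool.Agent.H564.QS

open Pool.Agent.H564.QH

open Pool.Agent.H466.HF Pool.Agent.H487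

/-- simple zeros on the line, and equal spacing, for the flow `g` at time `l`, at the scale `P` -/
def FlowLaw (f : ℝ → ℂ → ℂ) (P : ℝ → ℝ) (c K' η : ℝ) (X : ℕ) (U : ℝ) : Prop :=
  (∀ (l : ℝ) (z : ℂ), 0 < l → l ≤ 1 → f l z = 0 → K' * lo U z.im ≤ l * Real.log X ^ 2 →
    z.re = 0 ∧ deriv (f l) z ≠ 0) ∧
  ∀ l y : ℝ, 0 < l → l ≤ 1 → K' * lo U y ≤ l * Real.log X ^ 2 → l * Real.log X ≤ c →
    (∀ z z' : ℂ, |z.im - y| ≤ 1 → |z'.im - y| ≤ 1 → f l z = 0 → f l z' = 0 → z ≠ z' →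
      (1 - η) * (2 * Real.pi / P y) ≤ |z.im - z'.im|) ∧
    ∀ u v : ℝ, y - 1 ≤ u → v ≤ y + 1 → (1 + η) * (2 * Real.pi / P y) ≤ v - u →
      ∃ z : ℂ, f l z = 0 ∧ u ≤ z.im ∧ z.im ≤ v

/-- the law for one newform -/
theorem law_one (K3 K4 : ℝ) (hK3 : 1 ≤ K3) (hK4 : 1 ≤ K4) {η : ℝ} (hη : 0 < η) (hη1 : η ≤ 1) :
    ∃ (K' c L0 : ℝ), 0 < K' ∧ 0 < c ∧ 1 ≤ L0 ∧
    ∀ (N : ℕ) [NeZero N] (f : CuspForm (Gamma0 N : Subgroup (GL (Fin 2) ℝ)) 2) (w : ℝ),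
    W388.IsNewf N 2 f w → (∀ p : ℕ, p.Prime → ¬ p ∣ N → |W388.lamf f p| ≤ 2) →
    (∀ p : ℕ, p.Prime → p ∣ N → |W388.lamf f p| ≤ 1) →
    ∀ (X : ℕ) (U : ℝ) (Lf : ℂ → ℂ), 3 ≤ X → 1 ≤ U → L0 ≤ Real.log X → Real.log X / 2 ≤ Real.log N →
    Real.log N ≤ 3 * Real.log X → Size f X U K3 K4 Lf →
    FlowLaw (LL (gE f)) (fun y => Real.log (N * (1 + |y|) ^ 2)) c K' η X U := by
  obtain ⟨K₁, c, L₀, hK₁, hc, hL₀, H⟩ := lin_one K3 K4 hK3 hK4 (show 0 < η / 4 by positivity)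
  refine ⟨2 * K₁, c, L₀ + 400 / η, by positivity, hc, ?_, ?_⟩
  · have : 0 < 400 / η := by positivity
    linarith
  intro N _ f w hf hgood hbad X U Lf hX hU1 hL0 hNlo hNup Sz
  have p1 : 0 < 400 / η := by positivity
  obtain ⟨H1, H2⟩ := H N f w hf hgood hbad X U Lf hX hU1 (by linarith) hNlo hNup Sz
  have hlin : ∀ (l : ℝ) (z : ℂ), 0 < l → l ≤ 1 → LL (gE f) l z = 0 →
      2 * K₁ * lo U z.im ≤ l * Real.log X ^ 2 → z.re = 0 ∧ deriv (LL (gE f) l) z ≠ 0 := by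
    intro l z hl hl1 hz hlz
    refine H1 l z hl hl1 hz ?_
    have : 0 ≤ K₁ * lo U z.im := by
      have := lo_ge hU1 z.im
      positivity
    linarith
  refine ⟨hlin, fun l y hl hl1 hlo hup => ?_⟩
  have hnear : ∀ y' : ℝ, |y' - y| ≤ 1 → K₁ * lo U y' ≤ l * Real.log X ^ 2 := by
    intro y' hy'
    have h1 := mul_le_mul_of_nonneg_left (lo_near hU1 hy') hK₁.le
    linarith
  have hN1 := one_le_N (N := N)
  refine space_one hf hgood hbad hη hη1 hl rfl ?_ (fun y' hy' => H2 l y' hl (hnear y' hy') hup)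
    (fun z hz h0 => (H1 l z hl hl1 h0 (hnear z.im hz)).1)
  simp only
  rw [log_cnd]
  have h3 : 0 ≤ Real.log (1 + |y|) := Real.log_nonneg (by linarith [abs_nonneg y])
  have h4 : 200 / η = 400 / η / 2 := by ring
  linarith

end Pool.Agent.H564.QS
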