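import Pool.Agent.H564.QS.F4
import Pool.Agent.H564.QS.E3

/-!
# Almost all quadratic twists: the zeros of `Λ`, of its derivatives and of the heat flow
-/

set_option autoImplicit false

open Complex MeasureTheory Filter Topology Set MatrixGroups CongruenceSubgroup
open UpperHalfPlane hiding I
open Pool.Agent.Y19.QT (Twists Hecke IsFormOf sqf mem_sqf Mol)
open scoped ComplexConjugate

namespace Pool.Agent.H564.QS

open Pool.Agent.H564.QH

open Pool.Agent.H466.HF Pool.Agent.H487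

section

variable {N : ℕ} [NeZero N] {f : CuspForm (Gamma0 N : Subgroup (GL (Fin 2) ℝ)) 2} {w : ℝ}

/-- the strip of the zeros -/
lemma strip_one (hf : W388.IsNewf N 2 f w)
    (hgood : ∀ p : ℕ, p.Prime → ¬ p ∣ N → |W388.lamf f p| ≤ 2)
    (hbad : ∀ p : ℕ, p.Prime → p ∣ N → |W388.lamf f p| ≤ 1) {X : ℕ} (hX : 3 ≤ X) {U : ℝ} (hU1 : 1 ≤ U) {K3 K4 : ℝ}
    (hK3 : 1 ≤ K3) {Lf : ℂ → ℂ} (Sz : Size f X U K3 K4 Lf) {z : ℂ} (hz : LL (gE f) 0 z = 0) :
    |z.re| * Real.log X ≤ 8 * K3 * lo U z.im := by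
  have hlX := one_le_logX hX
  have hlX0 : 0 < Real.log X := by linarith
  have key : ∀ z : ℂ, 0 ≤ z.re → LL (gE f) 0 z = 0 → z.re * Real.log X ≤ 8 * K3 * lo U z.im := by
    intro z hz0 hz
    have hμ := lo_ge hU1 z.im
    have e1 : z + 1 / 2 - 1 / 2 = z := by ring
    have hst := datum_strip (by norm_num : 1 ≤ 2) (datum_newf hf hgood hbad) 0 (s := z + 1 / 2) (by
      rw [iter_X, e1, iteratedDeriv_zero, hz, mul_zero])
    rw [half_re] at hst
    by_contra hcon
    push Not at hcon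
    have h1 : z.re * Real.log X ≤ 1 * Real.log X := mul_le_mul_of_nonneg_right (by linarith) hlX0.le
    have h2 := Sz.low (z + 1 / 2) (by
      rw [half_im, div_le_iff₀ hlX0]
      linarith) (by
      rw [half_im, half_re]
      have h3 : 4 * (K3 * lo U z.im / Real.log X) ≤ z.re := by
        rw [mul_div_assoc', div_le_iff₀ hlX0]
        have : 0 ≤ K3 * lo U z.im := by positivity
        linarith
      linarith)
    have h4 := comp_ext hf Sz.diff Sz.comp (s := z + 1 / 2) (by rw [half_re]; linarith)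
    rw [e1, hz] at h4
    rcases mul_eq_zero.1 h4.symm with h5 | h5
    · exact gg_ne (by rw [half_re, half_re]; linarith) h5
    · rw [h5, norm_zero] at h2
      exact absurd h2 (not_le.2 (Real.exp_pos _))
  rcases le_total 0 z.re with h | h
  · rw [abs_of_nonneg h]
    exact key z h hz
  · rw [abs_of_nonpos h]
    have h1 : LL (gE f) 0 (-conj z) = 0 := by
      have h2 := LL_fe hf 0 z
      rw [hz] at h2
      have hw : (w : ℂ) ≠ 0 := by
        rcases hf.sign with h | h <;> rw [h] <;> simp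
      have h3 := (mul_eq_zero.1 h2.symm).resolve_left hw
      simpa using h3
    have h2 := key (-conj z) (by simpa using h) h1
    have e2 : (-conj z : ℂ).re = -z.re := by simp
    have e3 : (-conj z : ℂ).im = z.im := by simp
    rwa [e2, e3] at h2

end

lemma FlowLaw.mono {f : ℝ → ℂ → ℂ} {P : ℝ → ℝ} {c K' K'' η : ℝ} {X : ℕ} {U : ℝ} (hU1 : 1 ≤ U)
    (h : FlowLaw f P c K' η X U) (hK : K' ≤ K'') : FlowLaw f P c K'' η X U := by
  have hm : ∀ y : ℝ, K' * lo U y ≤ K'' * lo U y := fun y =>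
    mul_le_mul_of_nonneg_right hK (by linarith [lo_ge hU1 y])
  exact ⟨fun l z h1 h2 h3 h4 => h.1 l z h1 h2 h3 ((hm _).trans h4),
    fun l y h1 h2 h3 h4 => h.2 l y h1 h2 ((hm _).trans h3) h4⟩

variable {Q : ℕ} {lam : ℕ → ℝ}

/-- **the laws for almost all quadratic twists** -/
theorem laws_all (T : Twists Q lam) {a b : ℤ}
    (hQ : ∀ p : ℕ, p.Prime → (p : ℤ) ∣ 2 * (4 * a ^ 3 + 27 * b ^ 2) → p ∣ Q)
    (hlam : ∀ p : ℕ, p.Prime → ¬ p ∣ Q → lam p = Pool.Agent.Y19.QT.ap a b p / Real.sqrt p)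
    (N : ℤ → ℕ) (f : ∀ d : ℤ, CuspForm (Gamma0 (N d) : Subgroup (GL (Fin 2) ℝ)) 2)
    (hf : ∀ d : ℤ, d ≠ 0 → IsFormOf (a * d ^ 2) (b * d ^ 3) (N d) (f d))
    {η : ℝ} (hη : 0 < η) (hη1 : η ≤ 1) :
    ∃ C K' c : ℝ, 0 < c ∧ ∀ (X : ℕ) (U : ℝ), 3 ≤ X → Real.log X ≤ U → U ≤ Real.sqrt X →
      ∃ S ⊆ sqf X, (S.card : ℝ) ≤ C * X / U ∧
      ∀ d ∈ sqf X, d ∉ S →
        (∀ z : ℂ, LL (gE (f d)) 0 z = 0 → |z.re| * Real.log X ≤ K' * lo U z.im) ∧
        (∀ (n : ℕ) (z : ℂ), iteratedDeriv n (LL (gE (f d)) 0) z = 0 →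
          K' * lo U z.im ≤ n → z.re = 0 ∧ iteratedDeriv (n + 1) (LL (gE (f d)) 0) z ≠ 0) ∧
        FlowLaw (LL (gE (f d))) (fun y => Real.log (N d * (1 + |y|) ^ 2)) c K' η X U := by
  classical
  obtain ⟨C, K3, kB, kC, hC, hK3, HG⟩ := exists_good T
  set K4 : ℝ := kB + kC + 2 + 4 * Real.log 33 + 2 * Real.log (3 * T.c ^ 2 * 6 ^ kC) with hK4
  have hc : 1 ≤ T.c := T.one_le_c
  have hc0 : 0 < T.c := by linarith
  have hK41 : 1 ≤ K4 := by
    have h1 : 0 ≤ Real.log 33 := Real.log_nonneg (by norm_num)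
    have h2 : 0 ≤ Real.log (3 * T.c ^ 2 * 6 ^ kC) := by
      apply Real.log_nonneg
      have h6k : (1 : ℝ) ≤ 6 ^ kC := one_le_pow₀ (by norm_num)
      have hc2 : 1 ≤ T.c ^ 2 := one_le_pow₀ hc
      nlinarith
    have h3 : (0 : ℝ) ≤ kB := Nat.cast_nonneg _
    have h4 : (0 : ℝ) ≤ kC := Nat.cast_nonneg _
    rw [hK4]
    linarith
  obtain ⟨K₁, c, L₁, hK₁, hc', hL₁, HF⟩ := law_one K3 K4 hK3 hK41 hη hη1
  obtain ⟨K₂, L₂, hK₂, hL₂, HD⟩ := deriv_one K3 K4 hK3 hK41
  set K' : ℝ := K₁ + K₂ + 8 * K3 with hK'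
  set L1 : ℝ := L₁ + L₂ + (4 * Real.log T.c + 1) with hL1
  have hlc : 0 ≤ Real.log T.c := Real.log_nonneg hc
  have hL11 : 1 ≤ L1 := by rw [hL1]; linarith
  refine ⟨max C (3 * Real.exp L1), K', c, hc', fun X U hX hU hU2 => ?_⟩
  have hX0 : (0 : ℝ) < X := by exact_mod_cast (by omega : 0 < X)
  have hL := one_le_logX hX
  have hLp : 0 < Real.log X := by linarith
  have hU1 : 1 ≤ U := hL.trans hU
  have hU0 : 0 < U := by linarith
  by_cases hbig : L1 ≤ Real.log X
  · obtain ⟨S, hS1, hS2, hS3⟩ := HG X U hX hU hU2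
    refine ⟨S, hS1, hS2.trans ?_, fun d hd hdS => ?_⟩
    · gcongr
      exact le_max_left _ _
    · have hsq : Squarefree d := (mem_sqf.1 hd).2
      have G := hS3 d hd hdS
      have hff := hf d hsq.ne_zero
      obtain ⟨w, hnf, hgood, hbad⟩ := newf_of hff
      have : NeZero (N d) := ⟨hff.pos.ne'⟩
      obtain ⟨Lf, hLf⟩ := size_of_good T hQ hlam hsq hnf hff hgood hbad hX hU hK3 G
      have hNq := (unique T hQ hlam hsq hnf hff hgood hbad).1
      have hq := q_pos T hsq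
      have h1 : Real.log (N d) = 2 * Real.log (T.q d) := by
        rw [← hNq, Real.log_sqrt (Nat.cast_nonneg _)]
        ring
      have h4 : 4 * Real.log T.c + 1 ≤ Real.log X := by rw [hL1] at hbig; linarith
      have hN : Real.log X / 2 ≤ Real.log (N d) := by
        have h2 : Real.sqrt X ≤ T.c * T.q d := G.D.le.trans (T.q_lower d hsq)
        have h3 : Real.log (Real.sqrt X) ≤ Real.log (T.c * T.q d) :=
          Real.log_le_log (Real.sqrt_pos.2 hX0) h2
        rw [Real.log_sqrt hX0.le, Real.log_mul hc0.ne' hq.ne'] at h3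
        rw [h1]
        linarith
      have hN' : Real.log (N d) ≤ 3 * Real.log X := by
        have h2 : |(d : ℝ)| ≤ X := by
          have := (mem_sqf.1 hd).1
          exact_mod_cast this
        have h3 : T.q d ≤ T.c * X := (T.q_upper d hsq).trans (mul_le_mul_of_nonneg_left h2 hc0.le)
        have h5 := Real.log_le_log hq h3
        rw [Real.log_mul hc0.ne' hX0.ne'] at h5
        rw [h1]
        linarith
      have hmono : ∀ {κ : ℝ} (y : ℝ), κ ≤ K' → κ * lo U y ≤ K' * lo U y := fun y h =>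
        mul_le_mul_of_nonneg_right h (by linarith [lo_ge hU1 y])
      refine ⟨fun z hz => ?_, fun n z hz hn => ?_, ?_⟩
      · exact (strip_one hnf hgood hbad hX hU1 hK3 hLf hz).trans (hmono z.im (by rw [hK']; linarith))
      · exact HD (N d) (f d) w hnf hgood hbad X U Lf hX hU1 (by rw [hL1] at hbig; linarith) hN hN' hLf n z hz
          ((hmono z.im (by rw [hK']; linarith)).trans hn)
      · exact (HF (N d) (f d) w hnf hgood hbad X U Lf hX hU1 (by rw [hL1] at hbig; linarith) hN hN' hLf).mono hU1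
          (by rw [hK']; linarith)
  · push Not at hbig
    refine ⟨sqf X, subset_rfl, ?_, fun d hd hdS => absurd hd hdS⟩
    have h1 := Pool.Agent.Y474.QTZ6.card_sqf (X := X) (by omega)
    refine h1.trans ?_
    rw [le_div_iff₀ (by positivity)]
    have h2 : U ≤ Real.exp L1 := by
      have h3 : (X : ℝ) ≤ Real.exp L1 := (Real.log_le_iff_le_exp hX0).1 hbig.le
      have h4 : (1 : ℝ) ≤ X := by exact_mod_cast (by omega : 1 ≤ X)
      have h5 : Real.sqrt X ≤ X := by
        rw [Real.sqrt_le_left (by linarith)]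
        nlinarith
      exact (hU2.trans h5).trans h3
    calc 3 * (X : ℝ) * U ≤ 3 * X * Real.exp L1 := by gcongr
      _ = 3 * Real.exp L1 * X := by ring
      _ ≤ max C (3 * Real.exp L1) * X := by
          gcongr
          exact le_max_right _ _

end Pool.Agent.H564.QS
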