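import Pool.Agent.H564.QH.C1

/-!
# The logarithmic scale with a parameter
-/

set_option autoImplicit false

namespace Pool.Agent.H564.QS

/-- the logarithmic scale at height `t` -/
noncomputable def lo (U t : ℝ) : ℝ := Real.log U + Real.log (2 + |t|)

variable {U : ℝ}

lemma lo_ge (hU : 1 ≤ U) (t : ℝ) : 1 / 2 ≤ lo U t := by
  have h1 := Real.log_nonneg hU
  have h2 : Real.log 2 ≤ Real.log (2 + |t|) :=
    Real.log_le_log (by norm_num) (by linarith [abs_nonneg t])
  have h3 := Real.log_two_gt_d9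
  unfold lo
  linarith

lemma lo_ge_log (hU : 1 ≤ U) (t : ℝ) : Real.log (2 + |t|) ≤ lo U t := by
  have h1 := Real.log_nonneg hU
  unfold lo
  linarith

lemma lo_near (hU : 1 ≤ U) {t u : ℝ} (h : |t - u| ≤ 1) : lo U t ≤ 2 * lo U u := by
  have h0 := Real.log_nonneg hU
  have h1 : |t| ≤ |u| + 1 := by
    have := abs_sub_abs_le_abs_sub t u
    linarith
  have h2 : Real.log (2 + |t|) ≤ Real.log (2 * (2 + |u|)) :=
    Real.log_le_log (by have := abs_nonneg t; linarith) (by have := abs_nonneg u; linarith)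
  rw [Real.log_mul (by norm_num) (by have := abs_nonneg u; positivity)] at h2
  have h3 : Real.log 2 ≤ Real.log (2 + |u|) :=
    Real.log_le_log (by norm_num) (by linarith [abs_nonneg u])
  unfold lo
  linarith

lemma lo_nearA (hU : 1 ≤ U) {A : ℝ} (hA : 0 ≤ A) {t t' : ℝ} (h : |t' - t| ≤ A) :
    lo U t' ≤ (1 + 2 * Real.log (1 + A)) * lo U t := by
  have h1 := lo_ge hU t
  have ht := abs_nonneg t
  have h2 : Real.log (2 + |t'|) ≤ Real.log ((1 + A) * (2 + |t|)) := by
    apply Real.log_le_log (by have := abs_nonneg t'; linarith)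
    have h3 := abs_sub_abs_le_abs_sub t' t
    nlinarith
  rw [Real.log_mul (by linarith) (by linarith)] at h2
  have h3 : 0 ≤ Real.log (1 + A) := Real.log_nonneg (by linarith)
  have h4 : Real.log (1 + A) ≤ 2 * Real.log (1 + A) * lo U t := by nlinarith
  have e : (1 + 2 * Real.log (1 + A)) * lo U t = lo U t + 2 * Real.log (1 + A) * lo U t := by ring
  rw [e]
  unfold lo at h1 h4 ⊢
  linarith

lemma lo_near3 (hU : 1 ≤ U) {t t' : ℝ} (h : |t' - t| ≤ 3) : lo U t' ≤ 4 * lo U t := by
  have h1 := lo_ge hU t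
  have h2 : Real.log (2 + |t'|) ≤ Real.log (3 * (2 + |t|)) := by
    apply Real.log_le_log (by have := abs_nonneg t'; linarith)
    have h3 := abs_sub_abs_le_abs_sub t' t
    have := abs_nonneg t
    linarith
  rw [Real.log_mul (by norm_num) (by have := abs_nonneg t; linarith)] at h2
  have h3 : Real.log 3 ≤ 3 / 2 := by
    have := Real.log_three_lt_d9
    linarith
  unfold lo at h1 ⊢
  linarith

lemma exp_lo (hU : 1 ≤ U) (t : ℝ) (k : ℕ) : Real.exp (k * lo U t) = U ^ k * (2 + |t|) ^ k := by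
  have h0 : 0 < U := by linarith
  have h1 : 0 < 2 + |t| := by have := abs_nonneg t; linarith
  unfold lo
  rw [← Real.log_mul h0.ne' h1.ne', ← Real.log_pow, Real.exp_log (by positivity), mul_pow]

end Pool.Agent.H564.QS
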